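import Mathlib

set_option autoImplicit false
set_option maxSynthPendingDepth 3
set_option maxRecDepth 100000
set_option synthInstance.maxSize 100000

namespace Pool.Agent.Results.MP_a9a483_co.Prism
open SimpleGraph

/-- no induced odd cycle on at least five vertices, and no induced complement of one -/
def Berge {V : Type} (G : SimpleGraph V) : Prop :=
  ∀ n, 5 ≤ n → Odd n → IsEmpty (cycleGraph n ↪g G) ∧ IsEmpty ((cycleGraph n)ᶜ ↪g G)

/-- chordless paths of length `k` are induced embeddings of the path on `k+1` vertices -/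
def EvenPair {V : Type} (G : SimpleGraph V) (x y : V) : Prop :=
  x ≠ y ∧ ∀ (k : ℕ) (p : pathGraph (k + 1) ↪g G), p 0 = x → p (Fin.last k) = y → Even k

def LineBip {V : Type} (G : SimpleGraph V) : Prop :=
  ∃ (W : Type) (H : SimpleGraph W), H.Colorable 2 ∧ Nonempty (G ≃g H.lineGraph)

/-- `p` is a chordless path inside `S` from `A` to `B` with no interior vertex in `A ∪ B` -/
def Link {V : Type} {G : SimpleGraph V} (S A B : Set V) {k : ℕ} (p : pathGraph (k + 1) ↪g G) :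
    Prop :=
  (∀ i, p i ∈ S) ∧ p 0 ∈ A ∧ p (Fin.last k) ∈ B ∧
    ∀ i, i ≠ 0 → i ≠ Fin.last k → p i ∉ A ∧ p i ∉ B

def Side {V : Type} (G : SimpleGraph V) (S A B : Set V) : Prop :=
  A ⊆ S ∧ B ⊆ S ∧ Disjoint A B ∧ A.Nonempty ∧ B.Nonempty ∧
    (∃ (k : ℕ) (p : pathGraph (k + 1) ↪g G), Link S A B p) ∧
    ∀ (k : ℕ) (p : pathGraph (k + 1) ↪g G), Link S A B p →
      IsEmpty (G.induce S ≃g pathGraph (k + 1))

def TwoJoin {V : Type} (G : SimpleGraph V) : Prop :=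
  ∃ S A₁ B₁ A₂ B₂ : Set V, Side G S A₁ B₁ ∧ Side G Sᶜ A₂ B₂ ∧
    ∀ u ∈ S, ∀ v ∈ Sᶜ, G.Adj u v ↔ (u ∈ A₁ ∧ v ∈ A₂) ∨ (u ∈ B₁ ∧ v ∈ B₂)

lemma three {V : Type} {G : SimpleGraph V} {S A B : Set V} (h : Side G S A B) :
    ∃ a ∈ S, ∃ b ∈ S, ∃ c ∈ S, a ≠ b ∧ a ≠ c ∧ b ≠ c := by
  obtain ⟨-, -, hd, -, -, ⟨k, p, hp⟩, h2⟩ := h
  have hne : ¬ S ⊆ Set.range p := by
    intro hs
    have e : S = Set.range p := hs.antisymm (by rintro _ ⟨i, rfl⟩; exact hp.1 i)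
    subst e
    exact (h2 k p hp).false p.isoInduceRange.symm
  obtain ⟨c, hc, hc2⟩ := Set.not_subset.1 hne
  refine ⟨p 0, hp.1 _, p (Fin.last k), hp.1 _, c, hc, fun e => ?_, fun e => hc2 ⟨_, e⟩,
    fun e => hc2 ⟨_, e⟩⟩
  exact Set.disjoint_left.1 hd hp.2.1 (e ▸ hp.2.2.1)

lemma noclaw {V : Type} {G : SimpleGraph V} (h : LineBip G) (c x y z : V) (h1 : G.Adj c x)
    (h2 : G.Adj c y) (h3 : G.Adj c z) (n1 : ¬ G.Adj x y) (n2 : ¬ G.Adj x z) (n3 : ¬ G.Adj y z)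
    (d1 : x ≠ y) (d2 : x ≠ z) (d3 : y ≠ z) : False := by
  obtain ⟨W, H, -, ⟨φ⟩⟩ := h
  simp only [← φ.map_adj_iff, lineGraph_adj_iff_exists] at h1 h2 h3 n1 n2 n3
  obtain ⟨-, a, a1, a2⟩ := h1
  obtain ⟨-, b, b1, b2⟩ := h2
  obtain ⟨-, d, c1, c2⟩ := h3
  have e1 : a ≠ b := fun e => n1 ⟨φ.injective.ne d1, a, a2, e ▸ b2⟩
  have e2 : a ≠ d := fun e => n2 ⟨φ.injective.ne d2, a, a2, e ▸ c2⟩
  have e3 : b ≠ d := fun e => n3 ⟨φ.injective.ne d3, b, b2, e ▸ c2⟩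
  generalize (φ c).1 = e at a1 b1 c1
  induction e using Sym2.ind
  simp only [Sym2.mem_iff] at a1 b1 c1
  grind

def N5 (r : Fin 9 → Fin 9 → Bool) : Prop := ∀ x0 : Fin 9, ∀ x1 : Fin 9, r x0 x1 = true → ∀ x2 : Fin 9, r x0 x2 = false → x0 ≠ x2 → r x1 x2 = true → ∀ x3 : Fin 9, r x0 x3 = false → x0 ≠ x3 → r x1 x3 = false → x1 ≠ x3 → r x2 x3 = true → ∀ x4 : Fin 9, r x0 x4 = true → r x1 x4 = false → x1 ≠ x4 → r x2 x4 = false → x2 ≠ x4 → r x3 x4 = true → False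
def N7 (r : Fin 9 → Fin 9 → Bool) : Prop := ∀ x0 : Fin 9, ∀ x1 : Fin 9, r x0 x1 = true → ∀ x2 : Fin 9, r x0 x2 = false → x0 ≠ x2 → r x1 x2 = true → ∀ x3 : Fin 9, r x0 x3 = false → x0 ≠ x3 → r x1 x3 = false → x1 ≠ x3 → r x2 x3 = true → ∀ x4 : Fin 9, r x0 x4 = false → x0 ≠ x4 → r x1 x4 = false → x1 ≠ x4 → r x2 x4 = false → x2 ≠ x4 → r x3 x4 = true → ∀ x5 : Fin 9, r x0 x5 = false → x0 ≠ x5 → r x1 x5 = false → x1 ≠ x5 → r x2 x5 = false → x2 ≠ x5 → r x3 x5 = false → x3 ≠ x5 → r x4 x5 = true → ∀ x6 : Fin 9, r x0 x6 = true → r x1 x6 = false → x1 ≠ x6 → r x2 x6 = false → x2 ≠ x6 → r x3 x6 = false → x3 ≠ x6 → r x4 x6 = false → x4 ≠ x6 → r x5 x6 = true → False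
def N9 (r : Fin 9 → Fin 9 → Bool) : Prop := ∀ x0 : Fin 9, ∀ x1 : Fin 9, r x0 x1 = true → ∀ x2 : Fin 9, r x0 x2 = false → x0 ≠ x2 → r x1 x2 = true → ∀ x3 : Fin 9, r x0 x3 = false → x0 ≠ x3 → r x1 x3 = false → x1 ≠ x3 → r x2 x3 = true → ∀ x4 : Fin 9, r x0 x4 = false → x0 ≠ x4 → r x1 x4 = false → x1 ≠ x4 → r x2 x4 = false → x2 ≠ x4 → r x3 x4 = true → ∀ x5 : Fin 9, r x0 x5 = false → x0 ≠ x5 → r x1 x5 = false → x1 ≠ x5 → r x2 x5 = false → x2 ≠ x5 → r x3 x5 = false → x3 ≠ x5 → r x4 x5 = true → ∀ x6 : Fin 9, r x0 x6 = false → x0 ≠ x6 → r x1 x6 = false → x1 ≠ x6 → r x2 x6 = false → x2 ≠ x6 → r x3 x6 = false → x3 ≠ x6 → r x4 x6 = false → x4 ≠ x6 → r x5 x6 = true → False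

lemma nohole (G : SimpleGraph (Fin 9)) (r : Fin 9 → Fin 9 → Bool) (hr : ∀ u v, G.Adj u v ↔ r u v)
    (h5 : N5 r) (h7 : N7 r) (h9 : N9 r) (n : ℕ) (hn : 5 ≤ n) (ho : Odd n) :
    IsEmpty (cycleGraph n ↪g G) := by
  refine ⟨fun f => ?_⟩
  have hc : n ≤ 9 := by simpa using Fintype.card_le_of_injective f f.injective
  have a : ∀ i j, (cycleGraph n).Adj i j → r (f i) (f j) = true := fun i j h =>
    (hr _ _).1 (f.map_adj_iff.2 h)
  have b : ∀ i j, ¬ (cycleGraph n).Adj i j → r (f i) (f j) = false := fun i j h => by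
    rw [← Bool.not_eq_true, ← hr, f.map_adj_iff]; exact h
  obtain rfl | rfl | rfl : n = 5 ∨ n = 7 ∨ n = 9 := by obtain ⟨m, rfl⟩ := ho; omega
  · exact h5 (f 0)
      (f 1) (a 0 1 (by decide))
      (f 2) (b 0 2 (by decide)) (f.injective.ne (by decide)) (a 1 2 (by decide))
      (f 3) (b 0 3 (by decide)) (f.injective.ne (by decide)) (b 1 3 (by decide)) (f.injective.ne (by decide)) (a 2 3 (by decide))
      (f 4) (a 0 4 (by decide)) (b 1 4 (by decide)) (f.injective.ne (by decide)) (b 2 4 (by decide)) (f.injective.ne (by decide)) (a 3 4 (by decide))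
     
  · exact h7 (f 0)
      (f 1) (a 0 1 (by decide))
      (f 2) (b 0 2 (by decide)) (f.injective.ne (by decide)) (a 1 2 (by decide))
      (f 3) (b 0 3 (by decide)) (f.injective.ne (by decide)) (b 1 3 (by decide)) (f.injective.ne (by decide)) (a 2 3 (by decide))
      (f 4) (b 0 4 (by decide)) (f.injective.ne (by decide)) (b 1 4 (by decide)) (f.injective.ne (by decide)) (b 2 4 (by decide)) (f.injective.ne (by decide)) (a 3 4 (by decide))
      (f 5) (b 0 5 (by decide)) (f.injective.ne (by decide)) (b 1 5 (by decide)) (f.injective.ne (by decide)) (b 2 5 (by decide)) (f.injective.ne (by decide)) (b 3 5 (by decide)) (f.injective.ne (by decide)) (a 4 5 (by decide))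
      (f 6) (a 0 6 (by decide)) (b 1 6 (by decide)) (f.injective.ne (by decide)) (b 2 6 (by decide)) (f.injective.ne (by decide)) (b 3 6 (by decide)) (f.injective.ne (by decide)) (b 4 6 (by decide)) (f.injective.ne (by decide)) (a 5 6 (by decide))
     
  · exact h9 (f 0)
      (f 1) (a 0 1 (by decide))
      (f 2) (b 0 2 (by decide)) (f.injective.ne (by decide)) (a 1 2 (by decide))
      (f 3) (b 0 3 (by decide)) (f.injective.ne (by decide)) (b 1 3 (by decide)) (f.injective.ne (by decide)) (a 2 3 (by decide))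
      (f 4) (b 0 4 (by decide)) (f.injective.ne (by decide)) (b 1 4 (by decide)) (f.injective.ne (by decide)) (b 2 4 (by decide)) (f.injective.ne (by decide)) (a 3 4 (by decide))
      (f 5) (b 0 5 (by decide)) (f.injective.ne (by decide)) (b 1 5 (by decide)) (f.injective.ne (by decide)) (b 2 5 (by decide)) (f.injective.ne (by decide)) (b 3 5 (by decide)) (f.injective.ne (by decide)) (a 4 5 (by decide))
      (f 6) (b 0 6 (by decide)) (f.injective.ne (by decide)) (b 1 6 (by decide)) (f.injective.ne (by decide)) (b 2 6 (by decide)) (f.injective.ne (by decide)) (b 3 6 (by decide)) (f.injective.ne (by decide)) (b 4 6 (by decide)) (f.injective.ne (by decide)) (a 5 6 (by decide))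
     

def NJ (r : Fin 9 → Fin 9 → Bool) : Prop := ∀ s : Fin 9 → Bool,
  (∃ a, s a = true ∧ ∃ b, s b = true ∧ ∃ c, s c = true ∧ a ≠ b ∧ a ≠ c ∧ b ≠ c) →
  (∃ a, s a = false ∧ ∃ b, s b = false ∧ ∃ c, s c = false ∧ a ≠ b ∧ a ≠ c ∧ b ≠ c) →
  ∃ u, s u = true ∧ ∃ x, s x = false ∧ r u x = true ∧ ∃ v, s v = true ∧ ∃ y, s y = false ∧
    r v y = true ∧ ((r u y = true ∧ r v x = false) ∨ (r u y = false ∧ ∃ w, s w = true ∧
      ∃ z, s z = false ∧ r w z = true ∧ r u z = false ∧ r v z = false))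

lemma nojoin (G : SimpleGraph (Fin 9)) (r : Fin 9 → Fin 9 → Bool) (hr : ∀ u v, G.Adj u v ↔ r u v)
    (h : NJ r) : ¬ TwoJoin G := by
  classical
  rintro ⟨S, A₁, B₁, A₂, B₂, h1, h2, h3⟩
  obtain ⟨u, hu, x, hx, ux, v, hv, y, hy, vy, h4⟩ := h (fun v => decide (v ∈ S))
    (by simpa using three h1) (by simpa using three h2)
  simp only [← Bool.not_eq_true, ← hr, decide_eq_true_eq] at hu hx ux hv hy vy h4
  have d1 := Set.disjoint_left.1 h1.2.2.1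
  have d2 := Set.disjoint_left.1 h2.2.2.1
  rw [h3 u hu x hx] at ux
  rw [h3 v hv y hy] at vy
  rw [h3 u hu y hy, h3 v hv x hx] at h4
  rcases h4 with h4 | ⟨h4, w, hw, z, hz, wz, uz, vz⟩
  · have := @d1 u
    have := @d2 y
    tauto
  · rw [h3 w hw z hz] at wz
    rw [h3 u hu z hz] at uz
    rw [h3 v hv z hz] at vz
    tauto

def r (u v : Fin 9) : Bool := (1060916216815458609539598 : ℕ).testBit (9 * u + v)
def rc (u v : Fin 9) : Bool := u != v && !r u v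

def G : SimpleGraph (Fin 9) where
  Adj u v := r u v = true
  symm := ⟨by decide +kernel⟩
  loopless := ⟨by decide +kernel⟩

lemma hr (u v : Fin 9) : G.Adj u v ↔ r u v := Iff.rfl
lemma hrc (u v : Fin 9) : Gᶜ.Adj u v ↔ rc u v := by simp [rc, compl_adj, hr]

def P (x y : Fin 9) : List (Fin 9) := (([[[], [0, 1], [0, 2], [0, 3], [0, 2, 5, 4], [0, 1, 4, 5], [0, 1, 4, 5, 8, 6], [0, 1, 4, 7], [0, 2, 5, 8]], [[1, 0], [], [1, 2], [1, 2, 5, 3], [1, 4], [1, 0, 3, 5], [1, 0, 3, 6], [1, 0, 3, 5, 8, 7], [1, 2, 5, 8]], [[2, 0], [2, 1], [], [2, 1, 4, 3], [2, 0, 3, 4], [2, 5], [2, 0, 3, 6], [2, 1, 4, 7], [2, 0, 3, 4, 7, 8]], [[3, 0], [3, 5, 2, 1], [3, 4, 1, 2], [], [3, 4], [3, 5], [3, 6], [3, 5, 8, 7], [3, 4, 7, 8]], [[4, 5, 2, 0], [4, 1], [4, 3, 0, 2], [4, 3], [], [4, 5], [4, 5, 8, 6], [4, 7], [4, 3, 6, 8]], [[5, 4, 1, 0], [5, 3, 0, 1], [5, 2], [5, 3], [5, 4], [], [5, 4, 7, 6], [5, 3, 6, 7], [5, 8]],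 [[6, 7, 4, 5, 2, 0], [6, 3, 0, 1], [6, 3, 0, 2], [6, 3], [6, 8, 5, 4], [6, 7, 4, 5], [], [6, 7], [6, 8]], [[7, 4, 1, 0], [7, 6, 3, 5, 2, 1], [7, 4, 1, 2], [7, 8, 5, 3], [7, 4], [7, 6, 3, 5], [7, 6], [], [7, 8]], [[8, 5, 2, 0], [8, 5, 2, 1], [8, 6, 3, 4, 1, 2], [8, 7, 4, 3], [8, 6, 3, 4], [8, 5], [8, 6], [8, 7], []]] : List (List (List (Fin 9)))).getD x []).getD y []

lemma P_ok : ∀ x y : Fin 9, x ≠ y → ((P x y).length - 1) % 2 = 1 ∧ (P x y).getD 0 0 = x ∧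
    (P x y).getD ((P x y).length - 1) 0 = y ∧
    ∀ i j : Fin ((P x y).length - 1 + 1), ((P x y).getD i 0 = (P x y).getD j 0 → i = j) ∧
      (r ((P x y).getD i 0) ((P x y).getD j 0) = true ↔ i.1 + 1 = j.1 ∨ j.1 + 1 = i.1) := by
  decide +kernel

lemma conn (H : SimpleGraph (Fin 9)) (q : Fin 9 → Fin 9 → Bool) (hq : ∀ u v, H.Adj u v ↔ q u v)
    (h : ∀ v, v = 0 ∨ q 0 v = true ∨ ∃ w, q 0 w = true ∧ (q w v = true ∨
      ∃ z, q w z = true ∧ q z v = true)) : H.Connected := by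
  have h0 : ∀ v, H.Reachable 0 v := by
    intro v
    rcases h v with rfl | h | ⟨w, h, h' | ⟨z, h', h''⟩⟩
    · rfl
    · exact ((hq _ _).2 h).reachable
    · exact ((hq _ _).2 h).reachable.trans ((hq _ _).2 h').reachable
    · exact (((hq _ _).2 h).reachable.trans ((hq _ _).2 h').reachable).trans
        ((hq _ _).2 h'').reachable
  exact ⟨fun a b => (h0 a).symm.trans (h0 b)⟩

theorem result : ∃ G : SimpleGraph (Fin 9), G.Connected ∧ Gᶜ.Connected ∧ Berge G ∧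
    (∀ x y, ¬ EvenPair G x y) ∧ ¬ LineBip G ∧ ¬ LineBip Gᶜ ∧ ¬ TwoJoin G ∧ ¬ TwoJoin Gᶜ := by
  refine ⟨G, conn G r hr (by decide +kernel), conn Gᶜ rc hrc (by decide +kernel), ?_, ?_, ?_, ?_,
    nojoin G r hr (by unfold NJ; decide +kernel), nojoin Gᶜ rc hrc (by unfold NJ; decide +kernel)⟩
  · intro n hn ho
    refine ⟨nohole G r hr (by unfold N5; decide +kernel) (by unfold N7; decide +kernel)
      (by unfold N9; decide +kernel) n hn ho, ⟨fun f => ?_⟩⟩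
    refine (nohole Gᶜ rc hrc (by unfold N5; decide +kernel) (by unfold N7; decide +kernel)
      (by unfold N9; decide +kernel) n hn ho).false ⟨f.toEmbedding, fun {a b} => ?_⟩
    have := f.map_adj_iff (v := a) (w := b)
    simp only [compl_adj] at this ⊢
    constructor
    · rintro ⟨h1, h2⟩
      by_contra h3
      exact h2 (this.2 ⟨fun e => h1 (e ▸ rfl), h3⟩)
    · intro h
      exact ⟨f.injective.ne h.ne, fun h2 => (this.1 h2).2 h⟩
  · rintro x y ⟨hxy, h⟩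
    obtain ⟨h1, h2, h3, h4⟩ := P_ok x y hxy
    have := h ((P x y).length - 1) ⟨⟨fun i => (P x y).getD i 0, fun i j => (h4 i j).1⟩,
      fun {i j} => by rw [pathGraph_adj]; exact (h4 i j).2⟩ h2 h3
    rw [Nat.even_iff] at this
    omega
  · intro h
    refine noclaw h 3 0 6 4 ?_ ?_ ?_ ?_ ?_ ?_ (by decide) (by decide) (by decide) <;>
      rw [hr] <;> decide
  · intro h
    refine noclaw h 0 6 7 8 ?_ ?_ ?_ ?_ ?_ ?_ (by decide) (by decide) (by decide) <;>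
      rw [hrc] <;> decide

end Pool.Agent.Results.MP_a9a483_co.Prism
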